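import Pool.Agent.L7h49.WN.Def

set_option autoImplicit false

/-! Project WN, part TIG. -/

noncomputable section

namespace Pool.Agent.L7h5.WN
open Pool.Agent.L7h49.WN

/-- the threshold -/
lemma select (w : ℝ) (hw : 0 ≤ w) (b : ℕ → ℝ) (hb : ∀ j, |b j| ≤ w) (n m : ℕ) (hm : m ≤ n) :
    ∃ (T : Finset ℕ) (u : ℝ), T ⊆ Finset.range n ∧ T.card = m ∧ |u| ≤ w ∧ (∀ j ∈ T, u ≤ b j) ∧
      ∀ j ∈ Finset.range n, j ∉ T → b j ≤ u := by
  classical
  have hne : (Finset.powersetCard m (Finset.range n)).Nonempty := by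
    rw [Finset.powersetCard_nonempty, Finset.card_range]
    exact hm
  obtain ⟨T, hT, hmax⟩ := Finset.exists_max_image _ (fun T : Finset ℕ => ∑ j ∈ T, b j) hne
  rw [Finset.mem_powersetCard] at hT
  have hex : ∀ j ∈ T, ∀ l ∈ Finset.range n, l ∉ T → b l ≤ b j := by
    intro j hj l hl hlT
    have hlT' : l ∉ T.erase j := fun h => hlT (Finset.mem_of_mem_erase h)
    have h1 := hmax (insert l (T.erase j)) (by
      rw [Finset.mem_powersetCard]
      refine ⟨Finset.insert_subset hl ((Finset.erase_subset _ _).trans hT.1), ?_⟩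
      rw [Finset.card_insert_of_notMem hlT', Finset.card_erase_of_mem hj, hT.2]
      have : 0 < T.card := Finset.card_pos.2 ⟨j, hj⟩
      omega)
    rw [Finset.sum_insert hlT', ← Finset.add_sum_erase T b hj] at h1
    linarith
  rcases T.eq_empty_or_nonempty with h0 | h0
  · refine ⟨T, w, hT.1, hT.2, by rw [abs_of_nonneg hw], ?_, ?_⟩
    · intro j hj
      rw [h0] at hj
      simp at hj
    · exact fun j _ _ => (le_abs_self _).trans (hb j)
  · obtain ⟨j0, hj0, hmin⟩ := Finset.exists_min_image T b h0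
    exact ⟨T, b j0, hT.1, hT.2, hb j0, hmin, fun l hl hlT => hex j0 hj0 l hl hlT⟩

lemma norm_zeta : ‖zeta‖ = 1 := by
  unfold zeta
  rw [norm_div, Complex.norm_real, Real.norm_of_nonneg (Real.sqrt_nonneg 2)]
  have h1 : ‖(1 : ℂ) + Complex.I‖ = √2 := by
    rw [Complex.norm_def, Complex.normSq_apply]
    congr 1
    simp
    norm_num
  rw [h1, div_self (by positivity)]

lemma norm_pos_sub (s : Fin 4) (k i k' i' : ℤ) :
    ‖pos (s, k', i') - pos (s, k, i)‖ =
      √(((k' : ℝ) - k) ^ 2 + (((k' : ℝ) - k) / 2 + ((i' : ℝ) - i)) ^ 2) := by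
  have h1 : pos (s, k', i') - pos (s, k, i) = zeta ^ (s : ℕ) *
      ((((k' : ℝ) - k : ℝ) : ℂ) + ((((k' : ℝ) - k) / 2 + ((i' : ℝ) - i) : ℝ) : ℂ) * Complex.I) := by
    unfold pos
    push_cast
    ring
  rw [h1, norm_mul, norm_pow, norm_zeta, one_pow, one_mul, Complex.norm_add_mul_I]

lemma adj1 (s : Fin 4) (k i : ℤ) : G.Adj (s, k, i) (s, k + 1, i) := by
  refine ⟨by simp, ?_⟩
  rw [norm_sub_rev, norm_pos_sub]
  push_cast
  rw [Real.sqrt_le_left (by norm_num)]
  ring_nf
  norm_num

lemma adj2 (s : Fin 4) (k i : ℤ) : G.Adj (s, k, i) (s, k + 1, i - 1) := by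
  refine ⟨by simp, ?_⟩
  rw [norm_sub_rev, norm_pos_sub]
  push_cast
  rw [Real.sqrt_le_left (by norm_num)]
  ring_nf
  norm_num

lemma om1 (s : Fin 4) (k i : ℤ) : om (s, k, i) (s, k + 1, i) = 1 + max (a k) 0 := by
  unfold om
  simp

lemma om2 (s : Fin 4) (k i : ℤ) : om (s, k, i) (s, k + 1, i - 1) = 1 + max (-a k) 0 := by
  unfold om
  simp only
  rw [if_neg (by rintro ⟨-, -, h⟩; omega), if_neg (by rintro ⟨-, h, -⟩; omega),
    if_pos ⟨trivial, trivial, trivial⟩]

lemma wt_concat {x y z : V} (p : G.Walk x y) (h : G.Adj y z) :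
    wt (p.concat h) = wt p + om y z := by
  unfold wt
  rw [SimpleGraph.Walk.darts_concat]
  simp [List.concat_eq_append]

theorem s_TIG (hP : S_POT) : S_TIG := by
  classical
  intro s k i n m hm
  obtain ⟨hab, hP⟩ := hP
  have hw0 : (0 : ℝ) ≤ 1 / √5 := by positivity
  have hw1 : (1 : ℝ) / √5 ≤ 1 := by
    rw [div_le_one (by positivity)]
    exact Real.one_le_sqrt.2 (by norm_num)
  obtain ⟨T, u, hT, hTc, hu, h1, h2⟩ := select (1 / √5) hw0 (fun j => a (k + j))
    (fun j => hab _) n m hm
  obtain ⟨H, hH, -, -, -, -, hH2⟩ := hP u (hu.trans hw1)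
  have hH2 := hH2 hu
  have key : ∀ j : ℕ, j ≤ n → ∀ k' i' : ℤ, k' = k + j →
      i' = i - ((T.filter (· < j)).card : ℤ) → ∃ p : G.Walk (s, k, i) (s, k', i'),
      wt p = H k' - H k - u * (T.filter (· < j)).card := by
    intro j
    induction j with
    | zero =>
      intro _ k' i' hk' hi'
      have h0 : T.filter (· < 0) = ∅ := by
        ext x
        simp
      rw [h0] at hi' ⊢
      have e1 : k' = k := by simpa using hk'
      have e2 : i' = i := by simpa using hi'
      subst e1
      subst e2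
      exact ⟨SimpleGraph.Walk.nil, by simp [wt]⟩
    | succ j ih =>
      intro hj k' i' hk' hi'
      obtain ⟨p, hp⟩ := ih (by omega) (k + j) (i - ((T.filter (· < j)).card : ℤ)) rfl rfl
      have e1 : k' = k + j + 1 := by rw [hk']; push_cast; ring
      by_cases hjT : j ∈ T
      · have hc : (T.filter (· < j + 1)).card = (T.filter (· < j)).card + 1 := by
          have : T.filter (· < j + 1) = insert j (T.filter (· < j)) := by
            ext x
            simp only [Finset.mem_filter, Finset.mem_insert]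
            constructor
            · rintro ⟨hx, hx2⟩
              by_cases hxj : x = j
              · exact Or.inl hxj
              · exact Or.inr ⟨hx, by omega⟩
            · rintro (rfl | ⟨hx, hx2⟩)
              · exact ⟨hjT, by omega⟩
              · exact ⟨hx, by omega⟩
          rw [this, Finset.card_insert_of_notMem (by simp)]
        have e2 : i' = i - ((T.filter (· < j)).card : ℤ) - 1 := by
          rw [hi', hc]; push_cast; ring
        rw [hc]
        subst e1
        subst e2
        refine ⟨p.concat (adj2 s (k + j) _), ?_⟩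
        rw [wt_concat, hp, om2]
        have := (hH2 (k + j)).2 (h1 j hjT)
        rw [← this]
        push_cast
        ring
      · have hc : (T.filter (· < j + 1)) = (T.filter (· < j)) := by
          ext x
          simp only [Finset.mem_filter]
          constructor
          · rintro ⟨hx, hx2⟩
            refine ⟨hx, ?_⟩
            by_contra hcon
            have : x = j := by omega
            exact hjT (this ▸ hx)
          · rintro ⟨hx, hx2⟩
            exact ⟨hx, by omega⟩
        rw [hc] at hi' ⊢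
        subst e1
        subst hi'
        refine ⟨p.concat (adj1 s (k + j) _), ?_⟩
        rw [wt_concat, hp, om1]
        have := (hH2 (k + j)).1 (h2 j (Finset.mem_range.2 (by omega)) hjT)
        rw [← this]
        ring
  have hTn : T.filter (· < n) = T := by
    apply Finset.filter_true_of_mem
    intro x hx
    exact Finset.mem_range.1 (hT hx)
  obtain ⟨p, hp⟩ := key n le_rfl (k + n) (i - m) rfl (by rw [hTn, hTc])
  rw [hTn, hTc] at hp
  refine ⟨p, ?_⟩
  rw [hp, norm_pos_sub]
  have b1 := abs_le.1 (hH (k + n))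
  have b2 := abs_le.1 (hH k)
  have hu1 : u ^ 2 ≤ 1 := by
    have := hu.trans hw1
    nlinarith [abs_le.1 this, abs_nonneg u, sq_abs u]
  have hc : √(1 - u ^ 2) ^ 2 = 1 - u ^ 2 := Real.sq_sqrt (by linarith)
  set c := √(1 - u ^ 2) with hcdef
  have hcs : (n : ℝ) * c + ((n : ℝ) / 2 - m) * u ≤
      √((((k + n : ℤ) : ℝ) - k) ^ 2 + ((((k + n : ℤ) : ℝ) - k) / 2 + (((i - m : ℤ) : ℝ) - i)) ^ 2) := by
    refine (le_abs_self _).trans (Real.abs_le_sqrt ?_)
    push_cast
    have e1 : ((k : ℝ) + n - k) = n := by ring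
    have e2 : ((i : ℝ) - m - i) = -m := by ring
    rw [e1, e2]
    nlinarith [sq_nonneg ((n : ℝ) * u - ((n : ℝ) / 2 - m) * c), hc]
  push_cast at b1 hcs ⊢
  nlinarith [b1.1, b1.2, b2.1, b2.2, hcs]

end Pool.Agent.L7h5.WN
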